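import Mathlib

/-!
# MP_b53726_co, Q2: Room squares with a complement that are not isomorphic to skew ones

For every `q = 29^(4j+1)` we construct a Room square of side `q` over the field with `q` elements
that has a complement, although it is not isomorphic to any skew Room square.
-/

set_option linter.unusedSectionVars false

namespace Pool.Agent.Results.MP_b53726_co.ComplementNotSkew

/-- A Room square of side `r = |ι|`: rows and columns are indexed by the `r`-set `ι`, the `r + 1`
symbols are the elements of `Option ι` (`none` plays the role of the symbol `0`). -/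
structure IsRoomSquare {ι : Type} (M : ι → ι → Option (Sym2 (Option ι))) : Prop where
  not_diag : ∀ i j e, M i j = some e → ¬ e.IsDiag
  pair : ∀ x y : Option ι, x ≠ y → ∃! c : ι × ι, M c.1 c.2 = some s(x, y)
  row : ∀ (i : ι) (x : Option ι), ∃! j, ∃ e, M i j = some e ∧ x ∈ e
  col : ∀ (j : ι) (x : Option ι), ∃! i, ∃ e, M i j = some e ∧ x ∈ e

/-- Isomorphism: permutations of the rows, the columns and the symbols. -/
def Iso {ι : Type} (M M' : ι → ι → Option (Sym2 (Option ι))) : Prop :=
  ∃ (ρ γ : Equiv.Perm ι) (σ : Equiv.Perm (Option ι)),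
    ∀ i j, M' (ρ i) (γ j) = (M i j).map (Sym2.map σ)

/-- Standardized: cell `(i, i)` contains `{0, i}`. -/
def IsStandardized {ι : Type} (M : ι → ι → Option (Sym2 (Option ι))) : Prop :=
  ∀ i, M i i = some s(none, some i)

/-- Off the diagonal, exactly one of the two squares occupies each cell. -/
def Complementary {ι : Type} (M M' : ι → ι → Option (Sym2 (Option ι))) : Prop :=
  ∀ i j, i ≠ j → ((M i j).isSome ↔ ¬ (M' i j).isSome)

/-- `M` has a complement. -/
def HasComplement {ι : Type} (M : ι → ι → Option (Sym2 (Option ι))) : Prop :=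
  ∃ M₁ M₂, IsRoomSquare M₁ ∧ IsRoomSquare M₂ ∧ Iso M M₁ ∧ IsStandardized M₁ ∧ IsStandardized M₂ ∧
    Complementary M₁ M₂

/-- `M` is isomorphic to a skew Room square. -/
def IsoToSkew {ι : Type} (M : ι → ι → Option (Sym2 (Option ι))) : Prop :=
  ∃ M', IsRoomSquare M' ∧ Iso M M' ∧ IsStandardized M' ∧
    ∀ i j, i ≠ j → ((M' i j).isSome ↔ ¬ (M' j i).isSome)

/-! ### The construction over a field -/

section field

variable {F : Type} [Field F] [Fintype F] [DecidableEq F]

/-- the quartic character -/
def chi (l : ℕ) (x : F) : F := x ^ (28 * l + 7)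

/-- assumptions: `|F| = 112 l + 29`, characteristic `29` -/
structure Dat (F : Type) [Field F] [Fintype F] (l : ℕ) : Prop where
  card : Fintype.card F = 112 * l + 29
  char : (29 : F) = 0

variable {l : ℕ}

lemma chi_mul (x y : F) : chi l (x * y) = chi l x * chi l y := mul_pow _ _ _

lemma pow_aux {x c : F} (h : x ^ 7 = c) (h4 : c ^ 4 = 1) : chi l x = c := by
  unfold chi
  have : 28 * l + 7 = 7 * (4 * l + 1) := by ring
  rw [this, pow_mul, h, pow_add, pow_mul, h4, one_pow, one_mul, pow_one]

lemma I_sq (D : Dat F l) : (12 : F) ^ 2 = -1 := by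
  linear_combination 5 * D.char

lemma I_four (D : Dat F l) : (12 : F) ^ 4 = 1 := by
  linear_combination (12 ^ 2 - 1) * 5 * D.char

lemma chi_two (D : Dat F l) : chi l (2 : F) = 12 :=
  pow_aux (by linear_combination 4 * D.char) (I_four D)

lemma chi_three (D : Dat F l) : chi l (3 : F) = 12 :=
  pow_aux (by linear_combination 75 * D.char) (I_four D)

lemma chi_five (D : Dat F l) : chi l (5 : F) = -1 :=
  pow_aux (by linear_combination 2694 * D.char) (by norm_num)

lemma chi_neg_one : chi l (-1 : F) = -1 := pow_aux (by norm_num) (by norm_num)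

lemma chi_neg (x : F) : chi l (-x) = - chi l x := by
  rw [← neg_one_mul, chi_mul, chi_neg_one, neg_one_mul]

lemma chi_zero : chi l (0 : F) = 0 := by
  unfold chi
  exact zero_pow (by omega)

lemma chi_ne_zero {x : F} (hx : x ≠ 0) : chi l x ≠ 0 := pow_ne_zero _ hx

lemma chi_cases (D : Dat F l) {x : F} (hx : x ≠ 0) :
    chi l x = 1 ∨ chi l x = -1 ∨ chi l x = 12 ∨ chi l x = -12 := by
  have h1 : chi l x ^ 4 = 1 := by
    unfold chi
    rw [← pow_mul]
    have : (28 * l + 7) * 4 = Fintype.card F - 1 := by rw [D.card]; omega
    rw [this, FiniteField.pow_card_sub_one_eq_one x hx]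
  have h2 : (chi l x - 1) * ((chi l x + 1) * ((chi l x - 12) * (chi l x + 12))) = 0 := by
    linear_combination h1 + (chi l x ^ 2 - 1) * (- 5) * D.char
  rcases mul_eq_zero.1 h2 with h | h
  · left; exact sub_eq_zero.1 h
  · rcases mul_eq_zero.1 h with h | h
    · right; left; exact eq_neg_of_add_eq_zero_left h
    · rcases mul_eq_zero.1 h with h | h
      · right; right; left; exact sub_eq_zero.1 h
      · right; right; right; exact eq_neg_of_add_eq_zero_left h

/-- small integers are nonzero -/
lemma nz (D : Dat F l) {k u v : ℤ} (h : u * k = 1 + 29 * v) : (k : F) ≠ 0 := by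
  intro hk
  have h1 : ((u * k : ℤ) : F) = ((1 + 29 * v : ℤ) : F) := by rw [h]
  push_cast at h1
  rw [hk, D.char] at h1
  simp at h1

lemma two_ne (D : Dat F l) : (2 : F) ≠ 0 := by
  have := nz D (k := 2) (u := 15) (v := 1) (by norm_num)
  exact_mod_cast this
lemma three_ne (D : Dat F l) : (3 : F) ≠ 0 := by
  have := nz D (k := 3) (u := 10) (v := 1) (by norm_num)
  exact_mod_cast this
lemma four_ne (D : Dat F l) : (4 : F) ≠ 0 := by
  have := nz D (k := 4) (u := 22) (v := 3) (by norm_num)
  exact_mod_cast this
lemma five_ne (D : Dat F l) : (5 : F) ≠ 0 := by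
  have := nz D (k := 5) (u := 6) (v := 1) (by norm_num)
  exact_mod_cast this
lemma I_ne_negI (D : Dat F l) : (12 : F) ≠ -12 := by
  intro h
  have h1 := nz D (k := 24) (u := 23) (v := 19) (by norm_num)
  apply h1
  push_cast
  linear_combination h
lemma I_ne_one (D : Dat F l) : (12 : F) ≠ 1 := by
  intro h
  have h1 := nz D (k := 11) (u := 8) (v := 3) (by norm_num)
  apply h1
  push_cast
  linear_combination h
lemma I_ne_neg_one (D : Dat F l) : (12 : F) ≠ -1 := by
  intro h
  have h1 := nz D (k := 13) (u := 9) (v := 4) (by norm_num)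
  apply h1
  push_cast
  linear_combination h
lemma one_ne_neg_one (D : Dat F l) : (1 : F) ≠ -1 := by
  intro h
  apply two_ne D
  linear_combination h

/-- the adder -/
def ad (l : ℕ) (p : F) : F :=
  if chi l p = 1 then 2 * p else if chi l p = -1 then -2 * p else
    if chi l p = 12 then 4 * p else if chi l p = -12 then -4 * p else 0

/-- half of the difference of the two entries in a cell with row minus column equal to `z` -/
def off (l : ℕ) (z : F) : F :=
  if chi l z = 12 then z / 2 else if chi l z = -12 then z / 4 else 0

lemma chi_four (D : Dat F l) : chi l (4 : F) = -1 := by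
  have : (4 : F) = 2 * 2 := by norm_num
  rw [this, chi_mul, chi_two D]
  linear_combination 5 * D.char

lemma ad_one {p : F} (h : chi l p = 1) : ad l p = 2 * p := by simp [ad, h]
lemma ad_neg_one (D : Dat F l) {p : F} (h : chi l p = -1) : ad l p = -2 * p := by
  simp [ad, h, (one_ne_neg_one D).symm]
lemma ad_I (D : Dat F l) {p : F} (h : chi l p = 12) : ad l p = 4 * p := by
  simp [ad, h, I_ne_one D, I_ne_neg_one D]
lemma negI_ne_one (D : Dat F l) : (-12 : F) ≠ 1 := fun h => I_ne_neg_one D (by linear_combination -h)
lemma negI_ne_neg_one (D : Dat F l) : (-12 : F) ≠ -1 :=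
  fun h => I_ne_one D (by linear_combination -h)
lemma ad_negI (D : Dat F l) {p : F} (h : chi l p = -12) : ad l p = -4 * p := by
  unfold ad
  rw [h, if_neg (negI_ne_one D), if_neg (negI_ne_neg_one D), if_neg (I_ne_negI D).symm, if_pos rfl]
lemma off_I {z : F} (h : chi l z = 12) : off l z = z / 2 := by simp [off, h]
lemma off_negI (D : Dat F l) {z : F} (h : chi l z = -12) : off l z = z / 4 := by
  unfold off
  rw [h, if_neg (I_ne_negI D).symm, if_pos rfl]

lemma off_iff (D : Dat F l) {p z : F} (hp : p ≠ 0) :
    (off l z = p ∨ off l z = -p) ↔ ad l p = z := by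
  have h2 := two_ne D
  have h4 := four_ne D
  have hI : (12 : F) ≠ 0 := by rw [← chi_two D]; exact chi_ne_zero h2
  constructor
  · intro h
    have hz : chi l z = 12 ∨ chi l z = -12 := by
      by_contra hcon
      push Not at hcon
      have : off l z = 0 := by simp [off, hcon.1, hcon.2]
      rw [this] at h
      rcases h with h | h
      · exact hp h.symm
      · exact hp (by linear_combination h)
    rcases hz with hz | hz
    · rw [off_I hz] at h
      rcases h with h | h
      · have e : z = 2 * p := by field_simp at h; linear_combination h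
        rw [e, chi_mul, chi_two D] at hz
        have : chi l p = 1 := mul_left_cancel₀ hI (by rw [hz, mul_one])
        rw [ad_one this, e]
      · have e : z = -2 * p := by field_simp at h; linear_combination h
        have e' : z = 2 * (-p) := by rw [e]; ring
        rw [e', chi_mul, chi_two D, chi_neg] at hz
        have : -chi l p = 1 := mul_left_cancel₀ hI (by rw [hz, mul_one])
        rw [ad_neg_one D (by linear_combination -this), e]
    · rw [off_negI D hz] at h
      rcases h with h | h
      · have e : z = 4 * p := by field_simp at h; linear_combination h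
        rw [e, chi_mul, chi_four D] at hz
        rw [ad_I D (by linear_combination -hz), e]
      · have e : z = -4 * p := by field_simp at h; linear_combination h
        have e' : z = 4 * (-p) := by rw [e]; ring
        rw [e', chi_mul, chi_four D, chi_neg] at hz
        rw [ad_negI D (by linear_combination hz), e]
  · intro h
    rcases chi_cases D hp with hc | hc | hc | hc
    · rw [ad_one hc] at h
      have hz : chi l z = 12 := by rw [← h, chi_mul, chi_two D, hc, mul_one]
      left
      rw [off_I hz, ← h]
      field_simp
    · rw [ad_neg_one D hc] at h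
      have hz : chi l z = 12 := by
        have e' : z = 2 * (-p) := by rw [← h]; ring
        rw [e', chi_mul, chi_two D, chi_neg, hc]; ring
      right
      rw [off_I hz, ← h]
      field_simp
    · rw [ad_I D hc] at h
      have hz : chi l z = -12 := by rw [← h, chi_mul, chi_four D, hc]; ring
      left
      rw [off_negI D hz, ← h]
      field_simp
    · rw [ad_negI D hc] at h
      have hz : chi l z = -12 := by
        have e' : z = 4 * (-p) := by rw [← h]; ring
        rw [e', chi_mul, chi_four D, chi_neg, hc]; ring
      right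
      rw [off_negI D hz, ← h]
      field_simp

lemma ad_ne_zero (D : Dat F l) {p : F} (hp : p ≠ 0) : ad l p ≠ 0 := by
  intro h
  have := (off_iff D (z := 0) hp).2 h
  have h0 : off l (0 : F) = 0 := by unfold off; split_ifs <;> simp
  rw [h0] at this
  rcases this with h | h
  · exact hp h.symm
  · exact hp (by linear_combination h)

/-- inverse of `p ↦ p + ad p` -/
def finv (l : ℕ) (y : F) : F :=
  if chi l y = 12 then y / 3 else if chi l y = 1 then -y else
    if chi l y = -12 then y / 5 else -y / 3

lemma finv_iff (D : Dat F l) {p y : F} (hp : p ≠ 0) (hy : y ≠ 0) : p + ad l p = y ↔ p = finv l y := by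
  have h3 := three_ne D
  have h5 := five_ne D
  have hI : (12 : F) ≠ 0 := by rw [← chi_two D]; exact chi_ne_zero (two_ne D)
  have hII : (12 : F) * 12 = -1 := by linear_combination 5 * D.char
  constructor
  · intro h
    rcases chi_cases D hp with hc | hc | hc | hc
    · rw [ad_one hc] at h
      have e : y = 3 * p := by linear_combination -h
      have hz : chi l y = 12 := by rw [e, chi_mul, chi_three D, hc, mul_one]
      unfold finv
      rw [if_pos hz, e]
      field_simp
    · rw [ad_neg_one D hc] at h
      have e : y = -p := by linear_combination -h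
      have hz : chi l y = 1 := by rw [e, chi_neg, hc, neg_neg]
      unfold finv
      rw [hz, if_neg (I_ne_one D).symm, if_pos rfl, e, neg_neg]
    · rw [ad_I D hc] at h
      have e : y = 5 * p := by linear_combination -h
      have hz : chi l y = -12 := by rw [e, chi_mul, chi_five D, hc]; ring
      unfold finv
      rw [hz, if_neg (I_ne_negI D).symm, if_neg (negI_ne_one D), if_pos rfl, e]
      field_simp
    · rw [ad_negI D hc] at h
      have e : y = 3 * (-p) := by linear_combination -h
      have hz : chi l y = -1 := by
        rw [e, chi_mul, chi_three D, chi_neg, hc]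
        linear_combination hII
      unfold finv
      rw [hz, if_neg (I_ne_neg_one D).symm, if_neg (one_ne_neg_one D).symm,
        if_neg (negI_ne_neg_one D).symm, e]
      field_simp
  · intro h
    rcases chi_cases D hy with hc | hc | hc | hc
    · have e : finv l y = -y := by
        unfold finv
        rw [hc, if_neg (I_ne_one D).symm, if_pos rfl]
      rw [e] at h
      have hcp : chi l p = -1 := by rw [h, chi_neg, hc]
      rw [ad_neg_one D hcp, h]; ring
    · have e : finv l y = -y / 3 := by
        unfold finv
        rw [hc, if_neg (I_ne_neg_one D).symm, if_neg (one_ne_neg_one D).symm,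
          if_neg (negI_ne_neg_one D).symm]
      rw [e] at h
      have e' : y = 3 * (-p) := by rw [h]; field_simp
      have hcp : chi l p = -12 := by
        rw [e', chi_mul, chi_three D, chi_neg] at hc
        have : (12 : F) * chi l p = 12 * (-12) := by linear_combination -hc + hII
        exact mul_left_cancel₀ hI this
      rw [ad_negI D hcp, e']; ring
    · have e : finv l y = y / 3 := by
        unfold finv
        rw [if_pos hc]
      rw [e] at h
      have e' : y = 3 * p := by rw [h]; field_simp
      have hcp : chi l p = 1 := by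
        rw [e', chi_mul, chi_three D] at hc
        exact mul_left_cancel₀ hI (by rw [hc, mul_one])
      rw [ad_one hcp, e']; ring
    · have e : finv l y = y / 5 := by
        unfold finv
        rw [hc, if_neg (I_ne_negI D).symm, if_neg (negI_ne_one D), if_pos rfl]
      rw [e] at h
      have e' : y = 5 * p := by rw [h]; field_simp
      have hcp : chi l p = 12 := by
        rw [e', chi_mul, chi_five D] at hc
        linear_combination -hc
      rw [ad_I D hcp, e']; ring

lemma finv_ne_zero (D : Dat F l) {y : F} (hy : y ≠ 0) : finv l y ≠ 0 := by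
  have h3 := three_ne D
  have h5 := five_ne D
  unfold finv
  split_ifs
  · exact div_ne_zero hy h3
  · exact neg_ne_zero.2 hy
  · exact div_ne_zero hy h5
  · exact div_ne_zero (neg_ne_zero.2 hy) h3

lemma add_ad_ne_zero (D : Dat F l) {p : F} (hp : p ≠ 0) : p + ad l p ≠ 0 := by
  have h3 := three_ne D
  have h5 := five_ne D
  rcases chi_cases D hp with hc | hc | hc | hc
  · rw [ad_one hc]
    have : p + 2 * p = 3 * p := by ring
    rw [this]; exact mul_ne_zero h3 hp
  · rw [ad_neg_one D hc]
    have : p + -2 * p = -p := by ring
    rw [this]; exact neg_ne_zero.2 hp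
  · rw [ad_I D hc]
    have : p + 4 * p = 5 * p := by ring
    rw [this]; exact mul_ne_zero h5 hp
  · rw [ad_negI D hc]
    have : p + -4 * p = -(3 * p) := by ring
    rw [this]; exact neg_ne_zero.2 (mul_ne_zero h3 hp)

/-- the square -/
def Sq (l : ℕ) (g h : F) : Option (Sym2 (Option F)) :=
  if g = h then some s(none, some g) else
    if off l (g - h) = 0 then none else
      some s(some (g + off l (g - h)), some (g - off l (g - h)))

lemma Sq_self (g : F) : Sq l g g = some s(none, some g) := by simp [Sq]

lemma Sq_ne {g h : F} (hgh : g ≠ h) : Sq l g h = if off l (g - h) = 0 then none else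
      some s(some (g + off l (g - h)), some (g - off l (g - h))) := by simp [Sq, hgh]

/-- the cell containing `x` and `y` -/
lemma Sq_eq_iff (D : Dat F l) {g h x y : F} :
    Sq l g h = some s(some x, some y) ↔ x ≠ y ∧ 2 * g = x + y ∧ g - h = ad l ((x - y) / 2) := by
  have h2 := two_ne D
  constructor
  · intro hS
    by_cases hgh : g = h
    · subst hgh
      rw [Sq_self] at hS
      simp at hS
    · rw [Sq_ne hgh] at hS
      by_cases ho : off l (g - h) = 0
      · rw [if_pos ho] at hS
        exact absurd hS (by simp)
      · rw [if_neg ho] at hS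
        simp only [Option.some.injEq, Sym2.eq_iff] at hS
        have hxy : (g + off l (g - h) = x ∧ g - off l (g - h) = y) ∨
            (g + off l (g - h) = y ∧ g - off l (g - h) = x) := hS
        have hne : x ≠ y := by
          rintro rfl
          apply ho
          have : 2 * off l (g - h) = 0 := by
            rcases hxy with ⟨a, b⟩ | ⟨a, b⟩ <;> linear_combination a - b
          exact (mul_eq_zero.1 this).resolve_left h2
        refine ⟨hne, ?_, ?_⟩
        · rcases hxy with ⟨a, b⟩ | ⟨a, b⟩ <;> linear_combination a + b
        · symm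
          rw [← off_iff D (div_ne_zero (sub_ne_zero.2 hne) h2)]
          rcases hxy with ⟨a, b⟩ | ⟨a, b⟩
          · left
            field_simp
            linear_combination a - b
          · right
            field_simp
            linear_combination a - b
  · rintro ⟨hne, hg, hh⟩
    have hp : (x - y) / 2 ≠ 0 := div_ne_zero (sub_ne_zero.2 hne) h2
    have hgh : g ≠ h := by
      rintro rfl
      rw [sub_self] at hh
      exact ad_ne_zero D hp hh.symm
    rw [Sq_ne hgh]
    have ho := (off_iff D hp).2 hh.symm
    have ho0 : off l (g - h) ≠ 0 := by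
      intro h0
      rw [h0] at ho
      rcases ho with h | h
      · exact hp h.symm
      · exact hp (by linear_combination h)
    rw [if_neg ho0]
    simp only [Option.some.injEq, Sym2.eq_iff]
    have hg' : g = (x + y) / 2 := by field_simp; linear_combination hg
    rcases ho with h | h
    · left
      rw [h, hg']
      constructor <;> · field_simp; ring
    · right
      rw [h, hg']
      constructor <;> · field_simp; ring

/-- which cells contain a symbol -/
lemma mem_iff (D : Dat F l) {g h x : F} : (∃ e, Sq l g h = some e ∧ some x ∈ e) ↔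
    (g = h ∧ x = g) ∨ (x ≠ g ∧ g - h = ad l (x - g)) := by
  have h2 := two_ne D
  constructor
  · rintro ⟨e, he, hx⟩
    by_cases hgh : g = h
    · subst hgh
      rw [Sq_self, Option.some.injEq] at he
      subst he
      left
      simp at hx
      exact ⟨rfl, hx⟩
    · rw [Sq_ne hgh] at he
      by_cases ho : off l (g - h) = 0
      · rw [if_pos ho] at he
        exact absurd he (by simp)
      · rw [if_neg ho, Option.some.injEq] at he
        subst he
        rw [Sym2.mem_iff, Option.some.injEq, Option.some.injEq] at hx
        right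
        have hxg : x ≠ g := by
          rintro rfl
          apply ho
          rcases hx with a | a
          · linear_combination -a
          · linear_combination a
        refine ⟨hxg, ?_⟩
        symm
        rw [← off_iff D (sub_ne_zero.2 hxg)]
        rcases hx with a | a
        · left; linear_combination -a
        · right; linear_combination a
  · rintro (⟨rfl, rfl⟩ | ⟨hxg, hh⟩)
    · exact ⟨_, Sq_self x, by simp⟩
    · refine ⟨s(some x, some (2 * g - x)), ?_, by simp⟩
      rw [Sq_eq_iff D]
      refine ⟨?_, by ring, ?_⟩
      · intro h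
        apply hxg
        have : 2 * (x - g) = 0 := by linear_combination h
        exact sub_eq_zero.1 ((mul_eq_zero.1 this).resolve_left h2)
      · rw [hh]
        congr 1
        field_simp
        ring

lemma none_mem_iff {g h : F} : (∃ e, Sq l g h = some e ∧ none ∈ e) ↔ g = h := by
  constructor
  · rintro ⟨e, he, hx⟩
    by_contra hgh
    rw [Sq_ne hgh] at he
    by_cases ho : off l (g - h) = 0
    · rw [if_pos ho] at he
      exact absurd he (by simp)
    · rw [if_neg ho, Option.some.injEq] at he
      subst he
      simp at hx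
  · rintro rfl
    exact ⟨_, Sq_self g, by simp⟩

theorem Sq_isRoom (D : Dat F l) : IsRoomSquare (Sq l : F → F → _) := by
  have h2 := two_ne D
  refine ⟨?_, ?_, ?_, ?_⟩
  · intro g h e he hd
    by_cases hgh : g = h
    · subst hgh
      rw [Sq_self, Option.some.injEq] at he
      subst he
      simp at hd
    · rw [Sq_ne hgh] at he
      by_cases ho : off l (g - h) = 0
      · rw [if_pos ho] at he
        exact absurd he (by simp)
      · rw [if_neg ho, Option.some.injEq] at he
        subst he
        rw [Sym2.mk_isDiag_iff, Option.some.injEq] at hd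
        apply ho
        have : 2 * off l (g - h) = 0 := by linear_combination hd
        exact (mul_eq_zero.1 this).resolve_left h2
  · -- every pair is in exactly one cell
    have hnone : ∀ g : F, ∃! c : F × F, Sq l c.1 c.2 = some s(none, some g) := by
      intro g
      refine ⟨(g, g), Sq_self g, ?_⟩
      rintro ⟨a, b⟩ hab
      simp only at hab
      have h1 : a = b := none_mem_iff.1 ⟨_, hab, by simp⟩
      subst h1
      rw [Sq_self] at hab
      simp at hab
      rw [hab]
    intro x y hxy
    rcases x with _ | x <;> rcases y with _ | y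
    · exact absurd rfl hxy
    · exact hnone y
    · rw [Sym2.eq_swap]; exact hnone x
    · have hne : x ≠ y := fun h => hxy (by rw [h])
      refine ⟨((x + y) / 2, (x + y) / 2 - ad l ((x - y) / 2)), ?_, ?_⟩
      · simp only
        rw [Sq_eq_iff D]
        refine ⟨hne, by field_simp, by ring⟩
      · rintro ⟨a, b⟩ hab
        simp only at hab
        rw [Sq_eq_iff D] at hab
        obtain ⟨-, h3, h4⟩ := hab
        have ha : a = (x + y) / 2 := by field_simp; linear_combination h3
        rw [Prod.mk.injEq]
        refine ⟨ha, ?_⟩
        rw [← h4, ← ha]; ring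
  · intro i x
    rcases x with _ | x
    · exact ⟨i, none_mem_iff.2 rfl, fun j hj => (none_mem_iff.1 hj).symm⟩
    · by_cases hx : x = i
      · subst hx
        refine ⟨x, (mem_iff D).2 (Or.inl ⟨rfl, rfl⟩), ?_⟩
        intro j hj
        rcases (mem_iff D).1 hj with ⟨h, -⟩ | ⟨h, -⟩
        · exact h.symm
        · exact absurd rfl h
      · refine ⟨i - ad l (x - i), (mem_iff D).2 (Or.inr ⟨hx, by ring⟩), ?_⟩
        intro j hj
        rcases (mem_iff D).1 hj with ⟨-, h⟩ | ⟨-, h⟩
        · exact absurd h hx
        · rw [← h]; ring
  · intro j x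
    rcases x with _ | x
    · exact ⟨j, none_mem_iff.2 rfl, fun i hi => none_mem_iff.1 hi⟩
    · by_cases hx : x = j
      · subst hx
        refine ⟨x, (mem_iff D).2 (Or.inl ⟨rfl, rfl⟩), ?_⟩
        intro i hi
        rcases (mem_iff D).1 hi with ⟨h, -⟩ | ⟨h, h'⟩
        · exact h
        · exfalso
          apply add_ad_ne_zero D (sub_ne_zero.2 h)
          rw [← h']; ring
      · have hy : x - j ≠ 0 := sub_ne_zero.2 hx
        have hf := finv_ne_zero D hy
        have hspec := (finv_iff D hf hy).2 rfl
        refine ⟨x - finv l (x - j), (mem_iff D).2 (Or.inr ⟨?_, ?_⟩), ?_⟩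
        · intro h
          exact hf (by linear_combination h)
        · have e : x - (x - finv l (x - j)) = finv l (x - j) := by ring
          rw [e]
          linear_combination -hspec
        · intro i hi
          rcases (mem_iff D).1 hi with ⟨h, h'⟩ | ⟨h, h'⟩
          · exact absurd (h' ▸ h : x = j) hx
          · have h1 : x - i = finv l (x - j) := by
              rw [← finv_iff D (sub_ne_zero.2 h) hy, ← h']; ring
            rw [← h1]; ring

end field

/-! ### Transport and complement -/

lemma room_transport {ι : Type} {M M' : ι → ι → Option (Sym2 (Option ι))} (hM : IsRoomSquare M)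
    (ρ γ : Equiv.Perm ι) (σ : Equiv.Perm (Option ι))
    (h : ∀ i j, M' (ρ i) (γ j) = (M i j).map (Sym2.map σ)) : IsRoomSquare M' := by
  have h' : ∀ i j, M' i j = (M (ρ.symm i) (γ.symm j)).map (Sym2.map σ) := by
    intro i j
    rw [← h, Equiv.apply_symm_apply, Equiv.apply_symm_apply]
  have hmem : ∀ i j x, (∃ e, M' i j = some e ∧ x ∈ e) ↔
      ∃ e, M (ρ.symm i) (γ.symm j) = some e ∧ σ.symm x ∈ e := by
    intro i j x
    rw [h']
    constructor
    · rintro ⟨e, he, hx⟩
      rw [Option.map_eq_some_iff] at he
      obtain ⟨e0, h0, rfl⟩ := he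
      refine ⟨e0, h0, ?_⟩
      rw [Sym2.mem_map] at hx
      obtain ⟨y, hy, rfl⟩ := hx
      rwa [Equiv.symm_apply_apply]
    · rintro ⟨e, he, hx⟩
      refine ⟨Sym2.map σ e, by rw [he]; rfl, ?_⟩
      rw [Sym2.mem_map]
      exact ⟨_, hx, Equiv.apply_symm_apply _ _⟩
  refine ⟨?_, ?_, ?_, ?_⟩
  · intro i j e he hd
    rw [h', Option.map_eq_some_iff] at he
    obtain ⟨e0, h0, rfl⟩ := he
    apply hM.not_diag _ _ _ h0
    revert hd
    induction e0 using Sym2.ind with
    | _ a b =>
      rw [Sym2.map_mk, Sym2.mk_isDiag_iff, Sym2.mk_isDiag_iff]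
      intro hd
      exact σ.injective hd
  · intro x y hxy
    have hne : σ.symm x ≠ σ.symm y := fun hh => hxy (σ.symm.injective hh)
    obtain ⟨c, hc, huniq⟩ := hM.pair _ _ hne
    have key : ∀ a b, M' a b = some s(x, y) ↔ M (ρ.symm a) (γ.symm b) = some s(σ.symm x, σ.symm y) := by
      intro a b
      rw [h', Option.map_eq_some_iff]
      constructor
      · rintro ⟨e0, h0, he⟩
        rw [h0]
        congr 1
        have : Sym2.map σ.symm (Sym2.map σ e0) = Sym2.map σ.symm s(x, y) := by rw [he]
        rw [Sym2.map_map, Sym2.map_mk] at this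
        rw [← this]
        simp
      · intro h0
        exact ⟨_, h0, by simp⟩
    refine ⟨(ρ c.1, γ c.2), ?_, ?_⟩
    · simp only
      rw [key, Equiv.symm_apply_apply, Equiv.symm_apply_apply]
      exact hc
    · rintro ⟨a, b⟩ hab
      simp only at hab
      rw [key] at hab
      have := huniq (ρ.symm a, γ.symm b) hab
      rw [← this]
      simp
  · intro i x
    obtain ⟨j, hj, hu⟩ := hM.row (ρ.symm i) (σ.symm x)
    refine ⟨γ j, ?_, ?_⟩
    · simp only [hmem, Equiv.symm_apply_apply]
      exact hj
    · intro k hk
      simp only [hmem] at hk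
      rw [← hu _ hk]
      simp
  · intro j x
    obtain ⟨i, hi, hu⟩ := hM.col (γ.symm j) (σ.symm x)
    refine ⟨ρ i, ?_, ?_⟩
    · simp only [hmem, Equiv.symm_apply_apply]
      exact hi
    · intro k hk
      simp only [hmem] at hk
      rw [← hu _ hk]
      simp

lemma iso_refl {ι : Type} (M : ι → ι → Option (Sym2 (Option ι))) : Iso M M := by
  refine ⟨Equiv.refl _, Equiv.refl _, Equiv.refl _, ?_⟩
  intro i j
  simp

section field2

variable {F : Type} [Field F] [Fintype F] [DecidableEq F] {l : ℕ}

lemma isSome_Sq (D : Dat F l) {g h : F} (hgh : g ≠ h) :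
    (Sq l g h).isSome ↔ (chi l (g - h) = 12 ∨ chi l (g - h) = -12) := by
  have hz := sub_ne_zero.2 hgh
  rw [Sq_ne hgh]
  constructor
  · intro hs
    by_contra hcon
    push Not at hcon
    have : off l (g - h) = 0 := by simp [off, hcon.1, hcon.2]
    rw [if_pos this] at hs
    simp at hs
  · intro hs
    have : off l (g - h) ≠ 0 := by
      rcases hs with hs | hs
      · rw [off_I hs]; exact div_ne_zero hz (two_ne D)
      · rw [off_negI D hs]; exact div_ne_zero hz (four_ne D)
    rw [if_neg this]
    rfl

/-- multiplication by two on the symbols -/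
noncomputable def dbl (D : Dat F l) : Equiv.Perm F := Equiv.mulLeft₀ 2 (two_ne D)

/-- the second square -/
noncomputable def Sq2 (D : Dat F l) (g h : F) : Option (Sym2 (Option F)) :=
  (Sq l ((dbl D).symm g) ((dbl D).symm h)).map (Sym2.map (Equiv.optionCongr (dbl D)))

lemma Sq2_isRoom (D : Dat F l) : IsRoomSquare (Sq2 D) := by
  apply room_transport (Sq_isRoom D) (dbl D) (dbl D) (Equiv.optionCongr (dbl D))
  intro i j
  unfold Sq2
  rw [Equiv.symm_apply_apply, Equiv.symm_apply_apply]

lemma Sq2_std (D : Dat F l) : IsStandardized (Sq2 D) := by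
  intro i
  unfold Sq2
  rw [Sq_self]
  simp

lemma compl (D : Dat F l) : Complementary (Sq l : F → F → _) (Sq2 D) := by
  intro g h hgh
  have hz := sub_ne_zero.2 hgh
  have h1 : (Sq2 D g h).isSome ↔ (Sq l ((dbl D).symm g) ((dbl D).symm h)).isSome := by
    unfold Sq2
    rw [Option.isSome_map]
  have hne : (dbl D).symm g ≠ (dbl D).symm h := fun hh => hgh ((dbl D).symm.injective hh)
  rw [h1, isSome_Sq D hgh, isSome_Sq D hne]
  have e : g - h = 2 * ((dbl D).symm g - (dbl D).symm h) := by
    have e1 : ∀ x : F, x = 2 * (dbl D).symm x := fun x => ((dbl D).apply_symm_apply x).symm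
    rw [mul_sub, ← e1, ← e1]
  have hI : (12 : F) ≠ 0 := by rw [← chi_two D]; exact chi_ne_zero (two_ne D)
  have hII : (12 : F) * 12 = -1 := by linear_combination 5 * D.char
  have e2 : chi l (g - h) = 12 * chi l ((dbl D).symm g - (dbl D).symm h) := by
    rw [e, chi_mul, chi_two D]
  rw [e2]
  have hz' := sub_ne_zero.2 hne
  have c1 := I_ne_one D
  have c2 := I_ne_neg_one D
  have c3 := I_ne_negI D
  have c4 := negI_ne_one D
  have c5 := negI_ne_neg_one D
  rcases chi_cases D hz' with hc | hc | hc | hc <;> rw [hc]
  · constructor
    · rintro - (h | h)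
      · exact c1 h.symm
      · exact c4 h.symm
    · intro _; left; ring
  · constructor
    · rintro - (h | h)
      · exact c2 h.symm
      · exact c5 h.symm
    · intro _; right; ring
  · constructor
    · rintro (h | h)
      · exact absurd (hII.symm.trans h) (fun h => c2 h.symm)
      · exact absurd (hII.symm.trans h) (fun h => c5 h.symm)
    · intro h; exact absurd (Or.inl rfl) h
  · have hII' : (12 : F) * (-12) = 1 := by linear_combination -hII
    constructor
    · rintro (h | h)
      · exact absurd (hII'.symm.trans h) (fun h => c1 h.symm)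
      · exact absurd (hII'.symm.trans h) (fun h => c4 h.symm)
    · intro h; exact absurd (Or.inr rfl) h

theorem hasComplement (D : Dat F l) : HasComplement (Sq l : F → F → _) :=
  ⟨Sq l, Sq2 D, Sq_isRoom D, Sq2_isRoom D, iso_refl _, fun i => Sq_self i, Sq2_std D, compl D⟩

lemma chi_one : chi l (1 : F) = 1 := one_pow _

theorem not_isoToSkew (D : Dat F l) : ¬ IsoToSkew (Sq l : F → F → _) := by
  rintro ⟨M', hM', ⟨ρ, γ, σ, hiso⟩, hstd, hskew⟩
  have c1 := I_ne_one D
  have c2 := I_ne_neg_one D
  have c4 := negI_ne_one D
  have c5 := negI_ne_neg_one D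
  -- cells of difference `1` or `-1` are empty
  have hE1 : ∀ g h : F, g - h = 1 → ¬ (Sq l g h).isSome := by
    intro g h hgh hs
    have hne : g ≠ h := by
      rintro rfl
      rw [sub_self] at hgh
      exact zero_ne_one hgh
    rw [isSome_Sq D hne, hgh, chi_one] at hs
    rcases hs with h | h
    · exact c1 h.symm
    · exact c4 h.symm
  have hE2 : ∀ g h : F, g - h = -1 → ¬ (Sq l g h).isSome := by
    intro g h hgh hs
    have hne : g ≠ h := by
      rintro rfl
      rw [sub_self] at hgh
      exact (neg_ne_zero.2 one_ne_zero) hgh.symm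
    rw [isSome_Sq D hne, hgh, chi_neg_one] at hs
    rcases hs with h | h
    · exact c2 h.symm
    · exact c5 h.symm
  -- the column of row `i` containing the symbol `x`
  let π : F → F := fun i => γ.symm (ρ i)
  have hπ : ∀ i, ∃ e, Sq l i (π i) = some e ∧ σ.symm none ∈ e := by
    intro i
    have h1 := hiso i (π i)
    have h2 : M' (ρ i) (γ (π i)) = some s(none, some (ρ i)) := by
      simp only [π, Equiv.apply_symm_apply]
      exact hstd (ρ i)
    rw [h2] at h1
    have h3 := h1.symm
    rw [Option.map_eq_some_iff] at h3
    obtain ⟨e, he, he'⟩ := h3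
    refine ⟨e, he, ?_⟩
    have : none ∈ Sym2.map σ e := by rw [he']; simp
    rw [Sym2.mem_map] at this
    obtain ⟨y, hy, hy'⟩ := this
    rw [← hy', Equiv.symm_apply_apply]
    exact hy
  have hsk : ∀ i i', i ≠ i' → ((Sq l i (π i')).isSome ↔ ¬ (Sq l i' (π i)).isSome) := by
    intro i i' hii
    have h1 := hskew (ρ i) (ρ i') (fun h => hii (ρ.injective h))
    have h2 : ∀ a b, (M' (ρ a) (ρ b)).isSome ↔ (Sq l a (π b)).isSome := by
      intro a b
      have h3 := hiso a (π b)
      simp only [π, Equiv.apply_symm_apply] at h3
      rw [h3, Option.isSome_map]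
    rw [h2, h2] at h1
    exact h1
  rcases hx : σ.symm none with _ | x
  · have hid : ∀ i, π i = i := by
      intro i
      have := hπ i
      rw [hx] at this
      exact (none_mem_iff.1 this).symm
    have := hsk 0 1 zero_ne_one
    rw [hid, hid] at this
    exact hE2 0 1 (by ring) (this.2 (hE1 1 0 (by ring)))
  · have h1 : π x = x := by
      have := hπ x
      rw [hx] at this
      rcases (mem_iff D).1 this with ⟨h, -⟩ | ⟨h, -⟩
      · exact h.symm
      · exact absurd rfl h
    have h2 : π (x + 1) = x - 1 := by
      have := hπ (x + 1)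
      rw [hx] at this
      rcases (mem_iff D).1 this with ⟨-, h⟩ | ⟨-, h⟩
      · exfalso
        have : (1 : F) = 0 := by linear_combination -h
        exact one_ne_zero this
      · have e : x - (x + 1) = -1 := by ring
        rw [e, ad_neg_one D (chi_neg_one)] at h
        linear_combination -h
    have hne : x ≠ x + 1 := by
      intro h
      have : (1 : F) = 0 := by linear_combination -h
      exact one_ne_zero this
    have := hsk x (x + 1) hne
    rw [h1, h2] at this
    exact hE1 x (x - 1) (by ring) (this.2 (hE1 (x + 1) x (by ring)))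

end field2

/-- **Answer to Q2 (a) and (b).** There are arbitrarily large Room squares that have a complement
but are not isomorphic to any skew Room square; in particular infinitely many pairwise
non-isomorphic ones. -/
theorem result : ∀ N : ℕ, ∃ (ι : Type) (_ : Fintype ι), N < Fintype.card ι ∧
    ∃ M : ι → ι → Option (Sym2 (Option ι)),
      IsRoomSquare M ∧ HasComplement M ∧ ¬ IsoToSkew M := by
  classical
  intro N
  have : Fact (Nat.Prime 29) := ⟨by norm_num⟩
  let F := GaloisField 29 (4 * N + 1)
  have hF : Fintype F := Fintype.ofFinite F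
  have hcard : Fintype.card F = 29 ^ (4 * N + 1) := by
    rw [← Nat.card_eq_fintype_card]
    exact GaloisField.card 29 (4 * N + 1) (by omega)
  have hmod : ∃ t, (29 ^ 4) ^ N = 112 * t + 1 := by
    have : (29 ^ 4) ^ N % 112 = 1 := by
      rw [Nat.pow_mod]
      norm_num
    exact ⟨(29 ^ 4) ^ N / 112, by omega⟩
  obtain ⟨t, ht⟩ := hmod
  have D : Dat F (29 * t) := by
    refine ⟨?_, ?_⟩
    · rw [hcard, pow_succ, pow_mul, ht]; ring
    · exact_mod_cast CharP.cast_eq_zero F 29
  refine ⟨F, hF, ?_, Sq (29 * t), Sq_isRoom D, hasComplement D, not_isoToSkew D⟩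
  rw [hcard]
  calc N < 29 ^ N := Nat.lt_pow_self (by norm_num)
    _ ≤ 29 ^ (4 * N + 1) := Nat.pow_le_pow_right (by norm_num) (by omega)

end Pool.Agent.Results.MP_b53726_co.ComplementNotSkew
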